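import Mathlib

set_option autoImplicit false

open Set

namespace Pool.Agent.Proj

/-- tree-large sets of lists of length `m` -/
def Large : ℕ → Set (List ℕ) → Prop
  | 0, A => [] ∈ A
  | m + 1, A => {x : ℕ | Large m {l | x :: l ∈ A}}.Infinite

theorem Large.split {α : Type} [Finite α] (m : ℕ) : ∀ (A : Set (List ℕ)) (c : List ℕ → α),
    Large m A → ∃ a, Large m {l | l ∈ A ∧ c l = a} := by
  induction m with
  | zero => intro A c h; exact ⟨c [], h, rfl⟩
  | succ m ih =>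
    intro A c h
    have h1 : {x : ℕ | Large m {l | x :: l ∈ A}} ⊆
        ⋃ a : α, {x : ℕ | Large m {l | x :: l ∈ A ∧ c (x :: l) = a}} := by
      intro x hx
      obtain ⟨a, ha⟩ := ih {l | x :: l ∈ A} (fun l => c (x :: l)) hx
      exact mem_iUnion.2 ⟨a, ha⟩
    by_contra hcon
    push Not at hcon
    refine h (Set.Finite.subset (Set.finite_iUnion fun a => ?_) h1)
    have := hcon a
    by_contra hc
    exact this hc

theorem Large.above (m : ℕ) : ∀ (A : Set (List ℕ)), Large m A → ∀ y, ∃ l ∈ A, ∀ i ∈ l, y ≤ i := by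
  induction m with
  | zero => intro A h y; exact ⟨[], h, by simp⟩
  | succ m ih =>
    intro A h y
    obtain ⟨x, hx, hxy⟩ := Set.Infinite.exists_gt h y
    obtain ⟨l, hl, hl2⟩ := ih _ hx y
    refine ⟨x :: l, hl, ?_⟩
    intro i hi
    rcases List.mem_cons.1 hi with rfl | hi
    · exact hxy.le
    · exact hl2 i hi

/-- number of entries below `y` -/
def rk (l : List ℕ) (y : ℕ) : ℕ := (l.filter fun i => decide (i < y)).length

theorem rk_cons_lt (x : ℕ) (l : List ℕ) (y : ℕ) (h : x < y) : rk (x :: l) y = rk l y + 1 := by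
  simp [rk, h]

theorem rk_above (l : List ℕ) (y : ℕ) (h : ∀ i ∈ l, y ≤ i) : rk l y = 0 := by
  unfold rk
  rw [List.length_eq_zero_iff, List.filter_eq_nil_iff]
  intro i hi
  simpa using h i hi

theorem Large.rank (n : ℕ) : ∀ (m : ℕ) (A : Set (List ℕ)) (B : Set ℕ), n ≤ m → Large m A →
    B.Infinite → ∃ l ∈ A, ∃ y ∈ B, rk l y = n := by
  induction n with
  | zero =>
    intro m A B _ hA hB
    obtain ⟨y, hy⟩ := hB.nonempty
    obtain ⟨l, hl, hl2⟩ := hA.above m A y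
    exact ⟨l, hl, y, hy, rk_above l y hl2⟩
  | succ n ih =>
    intro m A B hnm hA hB
    obtain ⟨m, rfl⟩ : ∃ k, m = k + 1 := ⟨m - 1, by omega⟩
    obtain ⟨x, hx⟩ := Set.Infinite.nonempty hA
    have hB' : (B ∩ Ioi x).Infinite := by
      intro hf
      apply hB
      refine (hf.union (Set.finite_Iic x)).subset ?_
      intro y hy
      by_cases h : x < y
      · left; exact ⟨hy, h⟩
      · right; exact not_lt.1 h
    obtain ⟨l, hl, y, hy, hr⟩ := ih m {l | x :: l ∈ A} (B ∩ Ioi x) (by omega) hx hB'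
    exact ⟨x :: l, hl, y, hy.1, by rw [rk_cons_lt x l y hy.2, hr]⟩

theorem large_univ (m : ℕ) : Large m Set.univ := by
  induction m with
  | zero => trivial
  | succ m ih =>
    have : {x : ℕ | Large m {l | x :: l ∈ (Set.univ : Set (List ℕ))}} = Set.univ := by
      ext x
      simpa using ih
    show {x : ℕ | Large m {l | x :: l ∈ (Set.univ : Set (List ℕ))}}.Infinite
    rw [this]; exact Set.infinite_univ

/-- the relations -/
def CC (n : ℕ) : Set (ℝ × ℝ) :=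
  {p | ∃ (l : List ℕ) (y : ℕ), p = (((Encodable.encode l : ℕ) : ℝ), (y : ℝ)) ∧ rk l y = n}

theorem mem_CC (n : ℕ) (l : List ℕ) (y : ℕ) :
    ((((Encodable.encode l : ℕ) : ℝ), (y : ℝ)) : ℝ × ℝ) ∈ CC n ↔ rk l y = n := by
  constructor
  · rintro ⟨l', y', h, hr⟩
    rw [Prod.mk.injEq] at h
    have h1 : l = l' := Encodable.encode_injective (by exact_mod_cast h.1)
    have h2 : y = y' := by exact_mod_cast h.2
    rw [h1, h2, hr]
  · intro h; exact ⟨l, y, rfl, h⟩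

/-- the class of piecewise Boolean combinations -/
def Cl (G : Set (Set (ℝ × ℝ))) : Set (Set (ℝ × ℝ)) :=
  {T | ∃ (α : Type) (_ : Finite α) (f g : ℝ → α) (Φ : α → α → Set (Set (ℝ × ℝ)) → Prop),
    ∀ p : ℝ × ℝ, p ∈ T ↔ Φ (f p.1) (g p.2) {U | U ∈ G ∧ p ∈ U}}

theorem rect_mem (G : Set (Set (ℝ × ℝ))) (P Q : ℝ → Prop) :
    {p : ℝ × ℝ | P p.1 ∧ Q p.2} ∈ Cl G :=
  ⟨Prop, inferInstance, P, Q, fun a b _ => a ∧ b, fun _ => Iff.rfl⟩

theorem main_aux (G : Set (Set (ℝ × ℝ))) (hG : G.Finite) : ∃ n, CC n ∉ Cl G := by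
  classical
  by_contra hcon
  push Not at hcon
  choose α hα f g Φ hΦ using hcon
  haveI : Finite G := hG.to_subtype
  let Ty := Set G → Prop
  haveI : Finite Ty := inferInstanceAs (Finite (Set G → Prop))
  let M := Nat.card Ty
  -- colourings
  let A := (n : Fin (M + 1)) → α n
  haveI : ∀ n, Finite (α n) := hα
  haveI : Finite A := inferInstanceAs (Finite ((n : Fin (M + 1)) → α n))
  let cf : List ℕ → A := fun l n => f n ((Encodable.encode l : ℕ) : ℝ)
  let cg : ℕ → A := fun y n => g n (y : ℝ)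
  obtain ⟨a, ha⟩ := Large.split M Set.univ cf (large_univ M)
  have hb : ∃ b, {y | cg y = b}.Infinite := by
    by_contra hc
    push Not at hc
    have h1 : (Set.univ : Set ℕ) ⊆ ⋃ b : A, {y | cg y = b} := fun y _ => mem_iUnion.2 ⟨cg y, rfl⟩
    exact Set.infinite_univ ((Set.finite_iUnion fun b => hc b).subset h1)
  obtain ⟨b, hb⟩ := hb
  let β : Fin (M + 1) → Ty := fun n s => Φ n (a n) (b n) (Subtype.val '' s)
  have hninj : ¬ Function.Injective β := by
    intro hinj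
    have := Nat.card_le_card_of_injective β hinj
    rw [Nat.card_fin] at this
    have h3 : Nat.card Ty = M := rfl
    omega
  simp only [Function.Injective, not_forall] at hninj
  obtain ⟨n, n', hβ, hne⟩ := hninj
  obtain ⟨l, hl, y, hy, hr⟩ := Large.rank n M _ _ (by omega) ha hb
  have hty : ∀ p : ℝ × ℝ, {U | U ∈ G ∧ p ∈ U} = Subtype.val '' {U : G | p ∈ (U : Set (ℝ × ℝ))} := by
    intro p
    ext U
    simp only [mem_image, Subtype.exists]
    constructor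
    · rintro ⟨h1, h2⟩; exact ⟨U, h1, h2, rfl⟩
    · rintro ⟨V, h1, h2, rfl⟩; exact ⟨h1, h2⟩
  have key : ∀ k : Fin (M + 1), rk l y = k ↔
      β k {U : G | ((((Encodable.encode l : ℕ) : ℝ), (y : ℝ)) : ℝ × ℝ) ∈ (U : Set (ℝ × ℝ))} := by
    intro k
    rw [← mem_CC, hΦ k, hty]
    have h1 : f k ((Encodable.encode l : ℕ) : ℝ) = a k := congrFun hl.2 k
    have h2 : g k (y : ℝ) = b k := congrFun hy k
    show Φ k (f k ((Encodable.encode l : ℕ) : ℝ)) (g k (y : ℝ)) _ ↔ _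
    rw [h1, h2]
  have h4 := (key n).1 hr
  rw [hβ] at h4
  have h5 := (key n').2 h4
  apply hne
  apply Fin.ext
  rw [← hr, ← h5]

theorem main :
    ¬ (∀ F : Set (Set (ℝ × ℝ)), F.Countable →
      ∃ G : Set (Set (ℝ × ℝ)), G.Finite ∧
        ∀ S ∈ F, ∀ C : Set (Set (ℝ × ℝ)),
          (∀ T ∈ C, Tᶜ ∈ C) →
          (∀ T ∈ C, ∀ U ∈ C, T ∪ U ∈ C) →
          (∀ T ∈ C, {p : ℝ × ℝ | p.2 = 0 ∧ ∃ y : ℝ, (p.1, y) ∈ T} ∈ C) →
          (∀ T ∈ C, {p : ℝ × ℝ | p.1 = 0 ∧ ∃ x : ℝ, (x, p.2) ∈ T} ∈ C) →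
          (∀ A ∈ C, ∀ B ∈ C, A ⊆ {p : ℝ × ℝ | p.2 = 0} → B ⊆ {p : ℝ × ℝ | p.1 = 0} →
            {p : ℝ × ℝ | ((p.1, (0:ℝ)) ∈ A) ∧ (((0:ℝ), p.2) ∈ B)} ∈ C) →
          G ⊆ C → S ∈ C) := by
  intro H
  obtain ⟨G, hG, hH⟩ := H (range CC) (countable_range CC)
  obtain ⟨n, hn⟩ := main_aux G hG
  apply hn
  refine hH (CC n) ⟨n, rfl⟩ (Cl G) ?_ ?_ ?_ ?_ ?_ ?_
  · rintro T ⟨α, hα, f, g, Φ, h⟩
    refine ⟨α, hα, f, g, fun a b s => ¬ Φ a b s, fun p => ?_⟩
    rw [mem_compl_iff, h p]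
  · rintro T ⟨α, hα, f, g, Φ, h⟩ U ⟨α', hα', f', g', Φ', h'⟩
    refine ⟨α × α', inferInstance, fun x => (f x, f' x), fun x => (g x, g' x),
      fun a b s => Φ a.1 b.1 s ∨ Φ' a.2 b.2 s, fun p => ?_⟩
    rw [mem_union, h p, h' p]
  · intro T _
    have := rect_mem G (fun x => ∃ y : ℝ, (x, y) ∈ T) (fun y => y = 0)
    convert this using 2
    ext p; exact and_comm
  · intro T _
    exact rect_mem G (fun x => x = 0) (fun y => ∃ x : ℝ, (x, y) ∈ T)
  · intro A _ B _ _ _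
    exact rect_mem G (fun x => (x, (0:ℝ)) ∈ A) (fun y => ((0:ℝ), y) ∈ B)
  · intro U hU
    exact ⟨Unit, inferInstance, fun _ => (), fun _ => (), fun _ _ s => U ∈ s,
      fun p => ⟨fun h => ⟨hU, h⟩, fun h => h.2⟩⟩

end Pool.Agent.Proj
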